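import Mathlib

/-! Matrices over the dual numbers: subalgebras which contain all matrices modulo epsilon. -/

set_option autoImplicit false
set_option linter.all false

namespace Pool.Agent.X320.ZL

open Matrix Polynomial

section

variable {k : Type*} [Field k] {w : ℕ}

/-- two-sided ideals of the matrix algebra -/
theorem ideal_dich (T : Submodule k (Matrix (Fin w) (Fin w) k)) (hl : ∀ X, ∀ Y ∈ T, X * Y ∈ T) (hr : ∀ X, ∀ Y ∈ T, Y * X ∈ T) :
    T = ⊥ ∨ T = ⊤ := by
  by_cases h : T = ⊥
  · exact Or.inl h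
  right
  obtain ⟨Y, hY, hY0⟩ := (Submodule.ne_bot_iff T).1 h
  obtain ⟨a, b, hab⟩ : ∃ a b, Y a b ≠ 0 := by
    by_contra hcon
    push Not at hcon
    exact hY0 (Matrix.ext hcon)
  rw [eq_top_iff]
  intro X _
  rw [matrix_eq_sum_single X]
  refine T.sum_mem fun i _ => T.sum_mem fun j _ => ?_
  have h1 := hr (single b j (X i j)) _ (hl (single i a ((Y a b)⁻¹)) Y hY)
  rw [single_mul_mul_single, inv_mul_cancel₀ hab, one_mul] at h1
  exact h1

/-- derivations are inner -/
theorem inner_of_der (hw : 0 < w) (D : (Matrix (Fin w) (Fin w) k) →ₗ[k] (Matrix (Fin w) (Fin w) k)) (hD : ∀ X Y, D (X * Y) = X * D Y + D X * Y) :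
    ∃ P : (Matrix (Fin w) (Fin w) k), ∀ X, D X = X * P - P * X := by
  set o : Fin w := ⟨0, hw⟩
  set Q : (Matrix (Fin w) (Fin w) k) := ∑ i, D (single i o 1) * single o i 1 with hQ
  refine ⟨-Q, fun X => ?_⟩
  have key : ∑ i, D (X * single i o 1) * single o i 1 = Q * X := by
    have h1 : ∀ i, X * single i o (1 : k) = ∑ j, X j i • single j o (1 : k) := by
      intro i
      ext a b
      rw [Matrix.sum_apply]
      by_cases hb : b = o
      · subst hb
        rw [mul_single_apply_same, mul_one, Finset.sum_eq_single a]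
        · rw [Matrix.smul_apply, single_apply_same, smul_eq_mul, mul_one]
        · intro j _ hj
          rw [Matrix.smul_apply, single_apply_of_row_ne hj, smul_zero]
        · intro h; exact absurd (Finset.mem_univ _) h
      · rw [mul_single_apply_of_ne _ _ _ _ _ hb]
        symm
        refine Finset.sum_eq_zero fun j _ => ?_
        rw [Matrix.smul_apply, single_apply_of_col_ne _ _ (Ne.symm hb), smul_zero]
    have h2 : ∀ j, single o j (1 : k) * X = ∑ i, X j i • single o i (1 : k) := by
      intro j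
      ext a b
      rw [Matrix.sum_apply]
      by_cases ha : a = o
      · subst ha
        rw [single_mul_apply_same, one_mul, Finset.sum_eq_single b]
        · rw [Matrix.smul_apply, single_apply_same, smul_eq_mul, mul_one]
        · intro i _ hi
          rw [Matrix.smul_apply, single_apply_of_col_ne _ _ hi, smul_zero]
        · intro h; exact absurd (Finset.mem_univ _) h
      · rw [single_mul_apply_of_ne _ _ _ _ _ ha]
        symm
        refine Finset.sum_eq_zero fun i _ => ?_
        rw [Matrix.smul_apply, single_apply_of_row_ne (Ne.symm ha), smul_zero]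
    rw [hQ, Finset.sum_mul]
    have h3 : ∀ i, D (X * single i o 1) * single o i (1 : k) = ∑ j, X j i • (D (single j o 1) * single o i 1) := by
      intro i
      rw [h1, map_sum, Finset.sum_mul]
      refine Finset.sum_congr rfl fun j _ => ?_
      rw [map_smul, smul_mul_assoc]
    have h4 : ∀ j, D (single j o 1) * single o j (1 : k) * X = ∑ i, X j i • (D (single j o 1) * single o i 1) := by
      intro j
      rw [mul_assoc, h2, Finset.mul_sum]
      refine Finset.sum_congr rfl fun i _ => ?_
      rw [mul_smul_comm]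
    rw [Finset.sum_congr rfl fun i _ => h3 i, Finset.sum_congr rfl fun j _ => h4 j, Finset.sum_comm]
  have key2 : ∑ i, D (X * single i o 1) * single o i (1 : k) = X * Q + D X := by
    have h5 : ∀ i, D (X * single i o 1) * single o i (1 : k) =
        X * (D (single i o 1) * single o i 1) + D X * (single i i 1) := by
      intro i
      rw [hD, add_mul, mul_assoc, mul_assoc, single_mul_single_same, one_mul]
    rw [Finset.sum_congr rfl fun i _ => h5 i, Finset.sum_add_distrib, ← Finset.mul_sum, ← Finset.mul_sum,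
      ← hQ]
    congr 1
    have h6 : ∑ i : Fin w, single i i (1 : k) = 1 := by
      ext a b
      rw [Matrix.sum_apply]
      by_cases hab : a = b
      · subst hab
        rw [Finset.sum_eq_single a, single_apply_same, one_apply_eq]
        · intro j _ hj
          exact single_apply_of_row_ne hj _ _ _
        · intro h; exact absurd (Finset.mem_univ _) h
      · rw [one_apply_ne hab]
        refine Finset.sum_eq_zero fun j _ => ?_
        by_cases hja : j = a
        · subst hja
          exact single_apply_of_col_ne _ _ hab _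
        · exact single_apply_of_row_ne hja _ _ _
    rw [h6, mul_one]
  rw [key] at key2
  rw [mul_neg, neg_mul, sub_neg_eq_add, key2]
  abel

/-- the product of `p.1 + p.2 ε` and `q.1 + q.2 ε` -/
def pm (p q : (Matrix (Fin w) (Fin w) k) × (Matrix (Fin w) (Fin w) k)) : (Matrix (Fin w) (Fin w) k) × (Matrix (Fin w) (Fin w) k) := (p.1 * q.1, p.1 * q.2 + p.2 * q.1)

theorem pm_span {S : Set ((Matrix (Fin w) (Fin w) k) × (Matrix (Fin w) (Fin w) k))} (hS : ∀ p ∈ S, ∀ q ∈ S, pm p q ∈ S) :
    ∀ p ∈ Submodule.span k S, ∀ q ∈ Submodule.span k S, pm p q ∈ Submodule.span k S := by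
  have hadd : ∀ p p' q : (Matrix (Fin w) (Fin w) k) × (Matrix (Fin w) (Fin w) k), pm (p + p') q = pm p q + pm p' q := by
    intro p p' q
    refine Prod.ext ?_ ?_
    · exact add_mul _ _ _
    · show (p.1 + p'.1) * q.2 + (p.2 + p'.2) * q.1 = (p.1 * q.2 + p.2 * q.1) + (p'.1 * q.2 + p'.2 * q.1)
      rw [add_mul, add_mul]
      abel
  have hadd' : ∀ p q q' : (Matrix (Fin w) (Fin w) k) × (Matrix (Fin w) (Fin w) k), pm p (q + q') = pm p q + pm p q' := by
    intro p q q'
    refine Prod.ext ?_ ?_
    · exact mul_add _ _ _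
    · show p.1 * (q.2 + q'.2) + p.2 * (q.1 + q'.1) = (p.1 * q.2 + p.2 * q.1) + (p.1 * q'.2 + p.2 * q'.1)
      rw [mul_add, mul_add]
      abel
  have hsm : ∀ (c : k) (p q : (Matrix (Fin w) (Fin w) k) × (Matrix (Fin w) (Fin w) k)), pm (c • p) q = c • pm p q := by
    intro c p q
    refine Prod.ext ?_ ?_
    · exact smul_mul_assoc _ _ _
    · show (c • p.1) * q.2 + (c • p.2) * q.1 = c • (p.1 * q.2 + p.2 * q.1)
      rw [smul_mul_assoc, smul_mul_assoc, smul_add]
  have hsm' : ∀ (c : k) (p q : (Matrix (Fin w) (Fin w) k) × (Matrix (Fin w) (Fin w) k)), pm p (c • q) = c • pm p q := by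
    intro c p q
    refine Prod.ext ?_ ?_
    · exact mul_smul_comm _ _ _
    · show p.1 * (c • q.2) + p.2 * (c • q.1) = c • (p.1 * q.2 + p.2 * q.1)
      rw [mul_smul_comm, mul_smul_comm, smul_add]
  have h0 : ∀ q : (Matrix (Fin w) (Fin w) k) × (Matrix (Fin w) (Fin w) k), pm 0 q = 0 := by
    intro q
    have := hsm 0 0 q
    rwa [zero_smul, zero_smul] at this
  have h0' : ∀ q : (Matrix (Fin w) (Fin w) k) × (Matrix (Fin w) (Fin w) k), pm q 0 = 0 := by
    intro q
    have := hsm' 0 q 0
    rwa [zero_smul, zero_smul] at this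
  have step : ∀ p ∈ S, ∀ q ∈ Submodule.span k S, pm p q ∈ Submodule.span k S := by
    intro p hp q hq
    refine Submodule.span_induction (p := fun q _ => pm p q ∈ Submodule.span k S) ?_ ?_ ?_ ?_ hq
    · intro q hq
      exact Submodule.subset_span (hS p hp q hq)
    · rw [h0']
      exact Submodule.zero_mem _
    · intro q q' _ _ h h'
      rw [hadd']
      exact Submodule.add_mem _ h h'
    · intro c q _ h
      rw [hsm']
      exact Submodule.smul_mem _ c h
  intro p hp q hq
  refine Submodule.span_induction (p := fun p _ => pm p q ∈ Submodule.span k S) ?_ ?_ ?_ ?_ hp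
  · intro p hp
    exact step p hp q hq
  · rw [h0]
    exact Submodule.zero_mem _
  · intro p p' _ _ h h'
    rw [hadd]
    exact Submodule.add_mem _ h h'
  · intro c p _ h
    rw [hsm]
    exact Submodule.smul_mem _ c h

/-- **Dichotomy.** -/
theorem split_or (hw : 0 < w) {S : Set ((Matrix (Fin w) (Fin w) k) × (Matrix (Fin w) (Fin w) k))} (hS : ∀ p ∈ S, ∀ q ∈ S, pm p q ∈ S)
    (h1 : Submodule.span k (Prod.fst '' S) = ⊤) :
    (∀ Y : (Matrix (Fin w) (Fin w) k), ((0 : (Matrix (Fin w) (Fin w) k)), Y) ∈ Submodule.span k S) ∨ ∃ P : (Matrix (Fin w) (Fin w) k), ∀ p ∈ S, p.2 = p.1 * P - P * p.1 := by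
  set B := Submodule.span k S with hB
  have hpm := pm_span hS
  have hsurj : ∀ X : (Matrix (Fin w) (Fin w) k), ∃ Y : (Matrix (Fin w) (Fin w) k), (X, Y) ∈ B := by
    intro X
    have hX : X ∈ Submodule.span k (Prod.fst '' S) := by rw [h1]; trivial
    have h2 : Submodule.span k (Prod.fst '' S) = B.map (LinearMap.fst k (Matrix (Fin w) (Fin w) k) (Matrix (Fin w) (Fin w) k)) := by
      rw [hB, Submodule.map_span]
      rfl
    rw [h2] at hX
    obtain ⟨p, hp, hpX⟩ := hX
    refine ⟨p.2, ?_⟩
    have : (X, p.2) = p := Prod.ext hpX.symm rfl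
    rw [this]
    exact hp
  let T : Submodule k (Matrix (Fin w) (Fin w) k) := B.comap (LinearMap.inr k (Matrix (Fin w) (Fin w) k) (Matrix (Fin w) (Fin w) k))
  have hT : ∀ Y, Y ∈ T ↔ ((0 : (Matrix (Fin w) (Fin w) k)), Y) ∈ B := fun Y => Iff.rfl
  have hl : ∀ X, ∀ Y ∈ T, X * Y ∈ T := by
    intro X Y hY
    obtain ⟨Z, hZ⟩ := hsurj X
    have h2 := hpm _ hZ _ ((hT Y).1 hY)
    have e : pm (X, Z) ((0 : (Matrix (Fin w) (Fin w) k)), Y) = (0, X * Y) := by
      refine Prod.ext (mul_zero _) ?_
      show X * Y + Z * 0 = X * Y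
      rw [mul_zero, add_zero]
    rw [e] at h2
    exact h2
  have hr : ∀ X, ∀ Y ∈ T, Y * X ∈ T := by
    intro X Y hY
    obtain ⟨Z, hZ⟩ := hsurj X
    have h2 := hpm _ ((hT Y).1 hY) _ hZ
    have e : pm ((0 : (Matrix (Fin w) (Fin w) k)), Y) (X, Z) = (0, Y * X) := by
      refine Prod.ext (zero_mul _) ?_
      show 0 * Z + Y * X = Y * X
      rw [zero_mul, zero_add]
    rw [e] at h2
    exact h2
  rcases ideal_dich T hl hr with hbot | htop
  swap
  · left
    intro Y
    have : Y ∈ T := by rw [htop]; trivial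
    exact this
  right
  have huniq : ∀ X Y Y', (X, Y) ∈ B → (X, Y') ∈ B → Y = Y' := by
    intro X Y Y' h h'
    have h3 := B.sub_mem h h'
    have e : ((X, Y) - (X, Y') : (Matrix (Fin w) (Fin w) k) × (Matrix (Fin w) (Fin w) k)) = (0, Y - Y') := Prod.ext (sub_self _) rfl
    rw [e] at h3
    have h4 : Y - Y' ∈ T := h3
    rw [hbot] at h4
    exact sub_eq_zero.1 ((Submodule.mem_bot k).1 h4)
  choose F hF using hsurj
  let D : (Matrix (Fin w) (Fin w) k) →ₗ[k] (Matrix (Fin w) (Fin w) k) :=
    { toFun := F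
      map_add' := fun X Y => huniq (X + Y) _ _ (hF _) (B.add_mem (hF X) (hF Y))
      map_smul' := fun c X => huniq (c • X) _ _ (hF _) (B.smul_mem c (hF X)) }
  obtain ⟨P, hP⟩ := inner_of_der hw D fun X Y => by
    refine huniq (X * Y) _ _ (hF _) ?_
    exact hpm _ (hF X) _ (hF Y)
  refine ⟨P, fun p hp => ?_⟩
  rw [← hP]
  exact huniq p.1 _ _ (Submodule.subset_span hp) (hF p.1)

end

end Pool.Agent.X320.ZL
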