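import Pool.Agent.X320.ZL.Coc

/-! Cocycles which are coboundaries on a subgroup of finite index. -/

set_option autoImplicit false
set_option linter.all false

namespace Pool.Agent.X320.ZL

open Matrix

section

variable {Γ : Type*} [Group Γ] {k : Type*} [Field k] {w : ℕ} {W : Γ →* GL (Fin w) k}

theorem w_inv (W : Γ →* GL (Fin w) k) (g : Γ) : (W g : (Matrix (Fin w) (Fin w) k)) * (W g⁻¹ : (Matrix (Fin w) (Fin w) k)) = 1 := by
  rw [← val_mul', mul_inv_cancel, map_one, Units.val_one]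

theorem w_inv' (W : Γ →* GL (Fin w) k) (g : Γ) : (W g⁻¹ : (Matrix (Fin w) (Fin w) k)) * (W g : (Matrix (Fin w) (Fin w) k)) = 1 := by
  rw [← val_mul', inv_mul_cancel, map_one, Units.val_one]

theorem avg [CharZero k] {c : Γ → (Matrix (Fin w) (Fin w) k)} (hc : ∀ g h, c (g * h) = (W g : (Matrix (Fin w) (Fin w) k)) * c h + c g * (W h : (Matrix (Fin w) (Fin w) k))) {H : Subgroup Γ}
    (hH : H.FiniteIndex) {P : (Matrix (Fin w) (Fin w) k)} (hP : ∀ h ∈ H, c h = (W h : (Matrix (Fin w) (Fin w) k)) * P - P * (W h : (Matrix (Fin w) (Fin w) k))) :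
    ∃ P : (Matrix (Fin w) (Fin w) k), ∀ g, c g = (W g : (Matrix (Fin w) (Fin w) k)) * P - P * (W g : (Matrix (Fin w) (Fin w) k)) := by
  classical
  haveI := hH
  haveI : Fintype (Γ ⧸ H) := Fintype.ofFinite _
  set c' : Γ → (Matrix (Fin w) (Fin w) k) := fun g => c g - ((W g : (Matrix (Fin w) (Fin w) k)) * P - P * (W g : (Matrix (Fin w) (Fin w) k))) with hc'
  have hc'm : ∀ g h, c' (g * h) = (W g : (Matrix (Fin w) (Fin w) k)) * c' h + c' g * (W h : (Matrix (Fin w) (Fin w) k)) := by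
    intro g h
    simp only [hc']
    rw [hc, val_mul', mul_sub, sub_mul, mul_sub, sub_mul]
    simp only [mul_assoc]
    abel
  have hc'H : ∀ h ∈ H, c' h = 0 := fun h hh => by simp only [hc']; rw [hP h hh, sub_self]
  set z : Γ → (Matrix (Fin w) (Fin w) k) := fun g => c' g * (W g⁻¹ : (Matrix (Fin w) (Fin w) k)) with hz
  have hzH : ∀ g, ∀ h ∈ H, z (g * h) = z g := by
    intro g h hh
    simp only [hz]
    rw [hc'm, hc'H h hh, mul_zero, zero_add, _root_.mul_inv_rev, val_mul', mul_assoc, ← mul_assoc (W h : (Matrix (Fin w) (Fin w) k)), w_inv, one_mul]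
  have hzm : ∀ g h, z (g * h) = z g + (W g : (Matrix (Fin w) (Fin w) k)) * z h * (W g⁻¹ : (Matrix (Fin w) (Fin w) k)) := by
    intro g h
    simp only [hz]
    rw [hc'm, _root_.mul_inv_rev, val_mul', add_mul, add_comm]
    congr 1
    · rw [mul_assoc, ← mul_assoc (W h : (Matrix (Fin w) (Fin w) k)), w_inv, one_mul]
    · simp only [mul_assoc]
  have hzq : ∀ g, z (QuotientGroup.mk g : Γ ⧸ H).out = z g := by
    intro g
    have h1 : g⁻¹ * (QuotientGroup.mk g : Γ ⧸ H).out ∈ H := by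
      rw [← QuotientGroup.eq, QuotientGroup.out_eq']
    have h2 := hzH g _ h1
    rw [mul_inv_cancel_left] at h2
    exact h2
  set m : k := (Fintype.card (Γ ⧸ H) : k) with hm
  have hm0 : m ≠ 0 := by
    rw [hm]
    exact_mod_cast Fintype.card_ne_zero
  set R : (Matrix (Fin w) (Fin w) k) := m⁻¹ • ∑ q : Γ ⧸ H, z q.out with hR
  have hsum : ∀ g, (W g : (Matrix (Fin w) (Fin w) k)) * (∑ q : Γ ⧸ H, z q.out) * (W g⁻¹ : (Matrix (Fin w) (Fin w) k)) = (∑ q : Γ ⧸ H, z q.out) - m • z g := by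
    intro g
    rw [Finset.mul_sum, Finset.sum_mul]
    have h1 : ∀ q : Γ ⧸ H, (W g : (Matrix (Fin w) (Fin w) k)) * z q.out * (W g⁻¹ : (Matrix (Fin w) (Fin w) k)) = z ((g • q).out) - z g := by
      intro q
      rw [eq_sub_iff_add_eq, add_comm, ← hzm]
      have e : (g • q : Γ ⧸ H) = QuotientGroup.mk (g * q.out) := by
        conv_lhs => rw [← QuotientGroup.out_eq' q]
        rfl
      rw [e, hzq]
    rw [Finset.sum_congr rfl fun q _ => h1 q, Finset.sum_sub_distrib, Finset.sum_const, Finset.card_univ]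
    congr 1
    · exact Fintype.sum_equiv (MulAction.toPerm g) _ _ fun q => rfl
    · rw [hm, Nat.cast_smul_eq_nsmul]
  have hR2 : ∀ g, z g = R - (W g : (Matrix (Fin w) (Fin w) k)) * R * (W g⁻¹ : (Matrix (Fin w) (Fin w) k)) := by
    intro g
    rw [hR, mul_smul_comm, smul_mul_assoc, hsum, smul_sub, smul_smul, inv_mul_cancel₀ hm0, one_smul]
    abel
  refine ⟨P - R, fun g => ?_⟩
  have h1 : c' g = z g * (W g : (Matrix (Fin w) (Fin w) k)) := by
    simp only [hz]
    rw [mul_assoc, w_inv', mul_one]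
  have h2 : c g = c' g + ((W g : (Matrix (Fin w) (Fin w) k)) * P - P * (W g : (Matrix (Fin w) (Fin w) k))) := by
    simp only [hc']
    abel
  rw [h2, h1, hR2, sub_mul, mul_assoc ((W g : (Matrix (Fin w) (Fin w) k)) * R), w_inv', mul_one, mul_sub, sub_mul]
  abel

end

end Pool.Agent.X320.ZL
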