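import Pool.Agent.X320.ZL.Alg
import Pool.Agent.X320.DS.Trace

/-! Self-extensions among the subquotients of a representation, and their cocycles. -/

set_option autoImplicit false
set_option linter.all false

namespace Pool.Agent.X320.ZL

open Matrix Polynomial Pool.Agent.X320.DS

section

variable {Γ : Type*} [Group Γ] {k : Type*} [Field k] {n w : ℕ} (ρ : Γ →* GL (Fin n) k) (W : Γ →* GL (Fin w) k)

/-- `B / A` is isomorphic to `W` -/
def IsQuot (A B : Submodule k (Fin n → k)) : Prop :=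
  ∃ f : (Fin n → k) →ₗ[k] (Fin w → k), (∀ x ∈ B, f x = 0 ↔ x ∈ A) ∧ (∀ y, ∃ x ∈ B, f x = y) ∧
    ∀ g, ∀ x ∈ B, f ((ρ g : Matrix (Fin n) (Fin n) k) *ᵥ x) = (W g : Matrix (Fin w) (Fin w) k) *ᵥ f x

/-- `C / A` is a self-extension of `W`, in matrices -/
structure Dat (F1 F2 : Matrix (Fin w) (Fin n) k) (S : Matrix (Fin n) (Fin w) k) (A B C : Submodule k (Fin n → k)) :
    Prop where
  hAB : A ≤ B
  hBC : B ≤ C
  sB : Stable ρ B
  sC : Stable ρ C
  s : ∀ y, S *ᵥ y ∈ C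
  f2s : F2 * S = 1
  f1s : F1 * S = 0
  ker2 : ∀ x ∈ C, F2 *ᵥ x = 0 ↔ x ∈ B
  eq2 : ∀ g, ∀ x ∈ C, F2 *ᵥ ((ρ g : Matrix (Fin n) (Fin n) k) *ᵥ x) = (W g : Matrix (Fin w) (Fin w) k) *ᵥ (F2 *ᵥ x)
  ker1 : ∀ x ∈ B, F1 *ᵥ x = 0 ↔ x ∈ A
  eq1 : ∀ g, ∀ x ∈ B, F1 *ᵥ ((ρ g : Matrix (Fin n) (Fin n) k) *ᵥ x) = (W g : Matrix (Fin w) (Fin w) k) *ᵥ (F1 *ᵥ x)
  sur1 : ∀ y, ∃ x ∈ B, F1 *ᵥ x = y

variable {ρ W}

theorem exists_dat {A B C : Submodule k (Fin n → k)} (hAB : A ≤ B) (hBC : B ≤ C) (hB : Stable ρ B) (hC : Stable ρ C)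
    (h1 : IsQuot ρ W A B) (h2 : IsQuot ρ W B C) :
    ∃ (F1 F2 : Matrix (Fin w) (Fin n) k) (S : Matrix (Fin n) (Fin w) k), Dat ρ W F1 F2 S A B C := by
  obtain ⟨f1, k1, s1, e1⟩ := h1
  obtain ⟨f2, k2, s2, e2⟩ := h2
  have hsur : Function.Surjective (f2.domRestrict C) := by
    intro y
    obtain ⟨x, hx, hxy⟩ := s2 y
    exact ⟨⟨x, hx⟩, hxy⟩
  obtain ⟨g, hg⟩ := LinearMap.exists_rightInverse_of_surjective (f2.domRestrict C) (LinearMap.range_eq_top.2 hsur)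
  set s : (Fin w → k) →ₗ[k] (Fin n → k) := C.subtype ∘ₗ g with hs
  have hsC : ∀ y, s y ∈ C := fun y => (g y).2
  have hf2s : ∀ y, f2 (s y) = y := fun y => LinearMap.congr_fun hg y
  set f1' : (Fin n → k) →ₗ[k] (Fin w → k) := f1 - f1 ∘ₗ s ∘ₗ f2 with hf1'
  have hf1B : ∀ x ∈ B, f1' x = f1 x := by
    intro x hx
    have h0 : f2 x = 0 := (k2 x (hBC hx)).2 hx
    show f1 x - f1 (s (f2 x)) = f1 x
    rw [h0, map_zero, map_zero, sub_zero]
  have hf1s : ∀ y, f1' (s y) = 0 := by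
    intro y
    show f1 (s y) - f1 (s (f2 (s y))) = 0
    rw [hf2s, sub_self]
  have hm : ∀ (m m' : ℕ) (f : (Fin m → k) →ₗ[k] (Fin m' → k)) x, LinearMap.toMatrix' f *ᵥ x = f x := by
    intro m m' f x
    rw [← Matrix.toLin'_apply, Matrix.toLin'_toMatrix']
  refine ⟨LinearMap.toMatrix' f1', LinearMap.toMatrix' f2, LinearMap.toMatrix' s, ?_⟩
  refine ⟨hAB, hBC, hB, hC, fun y => ?_, ?_, ?_, fun x hx => ?_, fun g x hx => ?_, fun x hx => ?_, fun g x hx => ?_,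
    fun y => ?_⟩
  · rw [hm]; exact hsC y
  · rw [← LinearMap.toMatrix'_comp]
    have : f2 ∘ₗ s = LinearMap.id := LinearMap.ext hf2s
    rw [this, LinearMap.toMatrix'_id]
  · rw [← LinearMap.toMatrix'_comp]
    have : f1' ∘ₗ s = 0 := LinearMap.ext hf1s
    rw [this, map_zero]
  · rw [hm]; exact k2 x hx
  · rw [hm, hm]; exact e2 g x hx
  · rw [hm, hf1B x hx]; exact k1 x hx
  · rw [hm, hm, hf1B x hx, hf1B _ (hB g x hx)]; exact e1 g x hx
  · obtain ⟨x, hx, hxy⟩ := s1 y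
    refine ⟨x, hx, ?_⟩
    rw [hm, hf1B x hx, hxy]

section dat

variable {F1 F2 : Matrix (Fin w) (Fin n) k} {S : Matrix (Fin n) (Fin w) k} {A B C : Submodule k (Fin n → k)}

/-- the cocycle -/
def cc (ρ : Γ →* GL (Fin n) k) (F1 : Matrix (Fin w) (Fin n) k) (S : Matrix (Fin n) (Fin w) k) (g : Γ) :
    Matrix (Fin w) (Fin w) k := F1 * (ρ g : Matrix (Fin n) (Fin n) k) * S

theorem val_mul' (r : Γ →* GL (Fin n) k) (g h : Γ) : (r (g * h) : Matrix (Fin n) (Fin n) k) =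
    (r g : Matrix (Fin n) (Fin n) k) * (r h : Matrix (Fin n) (Fin n) k) := by
  rw [map_mul, Units.val_mul]

theorem val_pow' (r : Γ →* GL (Fin n) k) (g : Γ) (j : ℕ) : (r (g ^ j) : Matrix (Fin n) (Fin n) k) =
    (r g : Matrix (Fin n) (Fin n) k) ^ j := by
  rw [map_pow, Units.val_pow_eq_pow_val]

theorem Dat.f2 (d : Dat ρ W F1 F2 S A B C) (g : Γ) :
    F2 * (ρ g : Matrix (Fin n) (Fin n) k) * S = (W g : Matrix (Fin w) (Fin w) k) := by
  apply Matrix.toLin'.injective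
  apply LinearMap.ext
  intro y
  rw [Matrix.toLin'_apply, Matrix.toLin'_apply, Matrix.mul_assoc, ← mulVec_mulVec, ← mulVec_mulVec, d.eq2 g _ (d.s y),
    mulVec_mulVec y F2 S, d.f2s, one_mulVec]

theorem Dat.cc_mul (d : Dat ρ W F1 F2 S A B C) (g h : Γ) :
    cc ρ F1 S (g * h) = (W g : Matrix (Fin w) (Fin w) k) * cc ρ F1 S h + cc ρ F1 S g * (W h : Matrix (Fin w) (Fin w) k) := by
  apply Matrix.toLin'.injective
  apply LinearMap.ext
  intro y
  rw [map_add, LinearMap.add_apply, Matrix.toLin'_apply, Matrix.toLin'_apply, Matrix.toLin'_apply]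
  set x := (ρ h : Matrix (Fin n) (Fin n) k) *ᵥ (S *ᵥ y) with hx
  set z := S *ᵥ ((W h : Matrix (Fin w) (Fin w) k) *ᵥ y) with hz
  have hxC : x ∈ C := d.sC h _ (d.s y)
  have hzC : z ∈ C := d.s _
  have hb : x - z ∈ B := by
    rw [← d.ker2 _ (C.sub_mem hxC hzC), mulVec_sub, hx, d.eq2 h _ (d.s y), hz, mulVec_mulVec y F2 S, d.f2s, one_mulVec,
      mulVec_mulVec _ F2 S, d.f2s, one_mulVec, sub_self]
  have h1 := d.eq1 g _ hb
  rw [mulVec_sub, mulVec_sub, mulVec_sub, mulVec_sub] at h1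
  have h2 : F1 *ᵥ z = 0 := by rw [hz, mulVec_mulVec, d.f1s, zero_mulVec]
  rw [h2, mulVec_zero, sub_zero, sub_eq_iff_eq_add] at h1
  have e1 : cc ρ F1 S (g * h) *ᵥ y = F1 *ᵥ ((ρ g : Matrix (Fin n) (Fin n) k) *ᵥ x) := by
    rw [cc, val_mul', hx, mulVec_mulVec, mulVec_mulVec, mulVec_mulVec]
    congr 1
    simp only [Matrix.mul_assoc]
  have e2 : ((W g : Matrix (Fin w) (Fin w) k) * cc ρ F1 S h) *ᵥ y = (W g : Matrix (Fin w) (Fin w) k) *ᵥ (F1 *ᵥ x) := by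
    rw [cc, hx, mulVec_mulVec, mulVec_mulVec, mulVec_mulVec]
    congr 1
    simp only [Matrix.mul_assoc]
  have e3 : (cc ρ F1 S g * (W h : Matrix (Fin w) (Fin w) k)) *ᵥ y = F1 *ᵥ ((ρ g : Matrix (Fin n) (Fin n) k) *ᵥ z) := by
    rw [cc, hz, mulVec_mulVec, mulVec_mulVec, mulVec_mulVec]
  rw [e1, e2, e3, h1]

theorem Dat.cc_one (d : Dat ρ W F1 F2 S A B C) : cc ρ F1 S 1 = 0 := by
  rw [cc, map_one, Units.val_one, Matrix.mul_one, d.f1s]

/-- a complement from a coboundary -/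
theorem Dat.compl (d : Dat ρ W F1 F2 S A B C) {P : Matrix (Fin w) (Fin w) k}
    (hP : ∀ g, cc ρ F1 S g = (W g : Matrix (Fin w) (Fin w) k) * P - P * (W g : Matrix (Fin w) (Fin w) k)) :
    ∃ D, Stable ρ D ∧ D ⊓ B = A ∧ D ⊔ B = C := by
  let D : Submodule k (Fin n → k) :=
    { carrier := {v | v ∈ C ∧ F1 *ᵥ v = -(P *ᵥ (F2 *ᵥ v))}
      add_mem' := by
        rintro x y ⟨hx, hx'⟩ ⟨hy, hy'⟩
        refine ⟨C.add_mem hx hy, ?_⟩
        rw [mulVec_add, mulVec_add, mulVec_add, hx', hy', neg_add]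
      zero_mem' := ⟨C.zero_mem, by rw [mulVec_zero, mulVec_zero, mulVec_zero, neg_zero]⟩
      smul_mem' := by
        rintro c x ⟨hx, hx'⟩
        refine ⟨C.smul_mem c hx, ?_⟩
        rw [mulVec_smul, mulVec_smul, mulVec_smul, hx', smul_neg] }
  have key : ∀ g, ∀ v ∈ C, F1 *ᵥ ((ρ g : Matrix (Fin n) (Fin n) k) *ᵥ v) =
      cc ρ F1 S g *ᵥ (F2 *ᵥ v) + (W g : Matrix (Fin w) (Fin w) k) *ᵥ (F1 *ᵥ v) := by
    intro g v hv
    set z := S *ᵥ (F2 *ᵥ v) with hz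
    have hzC : z ∈ C := d.s _
    have hb : v - z ∈ B := by
      rw [← d.ker2 _ (C.sub_mem hv hzC), mulVec_sub, hz, mulVec_mulVec, d.f2s, one_mulVec, sub_self]
    have h1 := d.eq1 g _ hb
    have h2 : F1 *ᵥ z = 0 := by rw [hz, mulVec_mulVec, d.f1s, zero_mulVec]
    rw [mulVec_sub, mulVec_sub, mulVec_sub, h2, sub_zero, sub_eq_iff_eq_add] at h1
    rw [h1, add_comm]
    congr 1
    rw [cc, hz, mulVec_mulVec, mulVec_mulVec, mulVec_mulVec]
  refine ⟨D, ?_, ?_, ?_⟩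
  · rintro g v ⟨hv, hv'⟩
    refine ⟨d.sC g v hv, ?_⟩
    rw [key g v hv, d.eq2 g v hv, hv', hP, sub_mulVec, ← mulVec_mulVec, ← mulVec_mulVec, mulVec_neg]
    abel
  · ext v
    constructor
    · rintro ⟨⟨hv, hv'⟩, hvB⟩
      rw [(d.ker2 v hv).2 hvB, mulVec_zero, neg_zero] at hv'
      exact (d.ker1 v hvB).1 hv'
    · intro hv
      have hvB := d.hAB hv
      refine ⟨⟨d.hBC hvB, ?_⟩, hvB⟩
      rw [(d.ker2 v (d.hBC hvB)).2 hvB, mulVec_zero, neg_zero]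
      exact (d.ker1 v hvB).2 hv
  · apply le_antisymm
    · exact sup_le (fun v hv => hv.1) d.hBC
    · intro v hv
      obtain ⟨b, hb, hb'⟩ := d.sur1 (F1 *ᵥ v + P *ᵥ (F2 *ᵥ v))
      have e : v = (v - b) + b := by abel
      rw [e]
      refine Submodule.add_mem_sup ⟨C.sub_mem hv (d.hBC hb), ?_⟩ hb
      rw [mulVec_sub, mulVec_sub, hb', (d.ker2 b (d.hBC hb)).2 hb, sub_zero]
      abel

/-- the trace of the cocycle on powers -/
theorem Dat.trace_pow (d : Dat ρ W F1 F2 S A B C) (g : Γ) (j : ℕ) :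
    ∀ Y : Matrix (Fin w) (Fin w) k, Y * (W g : Matrix (Fin w) (Fin w) k) = (W g : Matrix (Fin w) (Fin w) k) * Y →
      (Y * cc ρ F1 S (g ^ j)).trace = j * (Y * (W g : Matrix (Fin w) (Fin w) k) ^ (j - 1) * cc ρ F1 S g).trace := by
  induction j with
  | zero =>
    intro Y _
    rw [pow_zero, d.cc_one, mul_zero, Nat.cast_zero, zero_mul, trace_zero]
  | succ j ih =>
    intro Y hY
    have hY' : (W g : Matrix (Fin w) (Fin w) k) * Y * (W g : Matrix (Fin w) (Fin w) k) =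
        (W g : Matrix (Fin w) (Fin w) k) * ((W g : Matrix (Fin w) (Fin w) k) * Y) := by
      rw [mul_assoc, hY]
    rw [pow_succ, d.cc_mul, mul_add, trace_add, val_pow', ← mul_assoc, ← mul_assoc Y (cc ρ F1 S (g ^ j)),
      trace_mul_comm (Y * cc ρ F1 S (g ^ j)), ← mul_assoc, ih _ hY', Nat.add_sub_cancel, Nat.cast_add, Nat.cast_one,
      add_mul, one_mul, add_comm]
    congr 1
    rcases j with _ | j
    · rw [Nat.cast_zero, zero_mul, zero_mul]
    · rw [Nat.add_sub_cancel, pow_succ' _ j, ← mul_assoc Y, hY]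

theorem Dat.f2_pow (d : Dat ρ W F1 F2 S A B C) (g : Γ) (j : ℕ) :
    F2 * (ρ g : Matrix (Fin n) (Fin n) k) ^ j * S = (W g : Matrix (Fin w) (Fin w) k) ^ j := by
  rw [← val_pow', d.f2, val_pow']

theorem Dat.f2_poly (d : Dat ρ W F1 F2 S A B C) (g : Γ) (q : k[X]) :
    F2 * aeval (ρ g : Matrix (Fin n) (Fin n) k) q * S = aeval (W g : Matrix (Fin w) (Fin w) k) q := by
  induction q using Polynomial.induction_on' with
  | add p q hp hq => rw [map_add, map_add, Matrix.mul_add, Matrix.add_mul, hp, hq]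
  | monomial j c => rw [aeval_monomial, aeval_monomial, ← Algebra.smul_def, ← Algebra.smul_def, Matrix.mul_smul,
      Matrix.smul_mul, d.f2_pow]

theorem Dat.trace_poly (d : Dat ρ W F1 F2 S A B C) (g : Γ) (q : k[X]) (Y : Matrix (Fin w) (Fin w) k)
    (hY : Y * (W g : Matrix (Fin w) (Fin w) k) = (W g : Matrix (Fin w) (Fin w) k) * Y) :
    (Y * (F1 * aeval (ρ g : Matrix (Fin n) (Fin n) k) q * S)).trace =
      (Y * aeval (W g : Matrix (Fin w) (Fin w) k) (derivative q) * cc ρ F1 S g).trace := by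
  induction q using Polynomial.induction_on' with
  | add p q hp hq =>
    rw [map_add, Matrix.mul_add, Matrix.add_mul, Matrix.mul_add, trace_add, hp, hq, map_add, map_add, mul_add, add_mul,
      trace_add]
  | monomial j c =>
    have h1 := d.trace_pow g j Y hY
    rw [derivative_monomial, aeval_monomial, aeval_monomial, ← Algebra.smul_def, ← Algebra.smul_def, Matrix.mul_smul,
      Matrix.smul_mul, Matrix.mul_smul, trace_smul, ← val_pow', mul_smul_comm, smul_mul_assoc, trace_smul]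
    have h2 : Y * (F1 * (ρ (g ^ j) : Matrix (Fin n) (Fin n) k) * S) = Y * cc ρ F1 S (g ^ j) := rfl
    rw [h2, h1, smul_eq_mul, smul_eq_mul, mul_assoc c]

/-- `g` acts semisimply on `C / A` -/
def SemiOn (X : Matrix (Fin n) (Fin n) k) (A C : Submodule k (Fin n → k)) : Prop :=
  ∃ q : k[X], q.Separable ∧ ∀ x ∈ C, aeval X q *ᵥ x ∈ A

theorem Dat.trace_zero' (d : Dat ρ W F1 F2 S A B C) {g : Γ} (h : SemiOn (ρ g : Matrix (Fin n) (Fin n) k) A C)
    (Y : Matrix (Fin w) (Fin w) k)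
    (hY : Y * (W g : Matrix (Fin w) (Fin w) k) = (W g : Matrix (Fin w) (Fin w) k) * Y) :
    (Y * cc ρ F1 S g).trace = 0 := by
  obtain ⟨q, hq, h⟩ := h
  have h1 : F1 * aeval (ρ g : Matrix (Fin n) (Fin n) k) q * S = 0 := by
    apply Matrix.toLin'.injective
    apply LinearMap.ext
    intro y
    rw [Matrix.toLin'_apply, map_zero, LinearMap.zero_apply, Matrix.mul_assoc, ← mulVec_mulVec, ← mulVec_mulVec]
    have h2 := h _ (d.s y)
    exact (d.ker1 _ (d.hAB h2)).2 h2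
  have h2 : aeval (W g : Matrix (Fin w) (Fin w) k) q = 0 := by
    rw [← d.f2_poly]
    apply Matrix.toLin'.injective
    apply LinearMap.ext
    intro y
    rw [Matrix.toLin'_apply, map_zero, LinearMap.zero_apply, Matrix.mul_assoc, ← mulVec_mulVec, ← mulVec_mulVec]
    have h2 := h _ (d.s y)
    exact (d.ker2 _ (d.hBC (d.hAB h2))).2 (d.hAB h2)
  obtain ⟨a, b, hab⟩ := hq
  have h3 := congrArg (aeval (W g : Matrix (Fin w) (Fin w) k)) hab
  rw [map_add, map_mul, h2, mul_zero, zero_add, map_mul, map_one] at h3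
  have e0 : aeval (W g : Matrix (Fin w) (Fin w) k) b * (W g : Matrix (Fin w) (Fin w) k) =
      (W g : Matrix (Fin w) (Fin w) k) * aeval (W g : Matrix (Fin w) (Fin w) k) b := by
    have e1 : aeval (W g : Matrix (Fin w) (Fin w) k) (b * X) = aeval (W g : Matrix (Fin w) (Fin w) k) b *
        (W g : Matrix (Fin w) (Fin w) k) := by rw [map_mul, aeval_X]
    have e2 : aeval (W g : Matrix (Fin w) (Fin w) k) (X * b) = (W g : Matrix (Fin w) (Fin w) k) *
        aeval (W g : Matrix (Fin w) (Fin w) k) b := by rw [map_mul, aeval_X]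
    rw [← e1, ← e2, mul_comm]
  have h4 := d.trace_poly g q (Y * aeval (W g : Matrix (Fin w) (Fin w) k) b) (by
    rw [mul_assoc, e0, ← mul_assoc, hY, mul_assoc])
  rw [h1, Matrix.mul_zero, mul_assoc Y, h3, mul_one, Matrix.trace_zero] at h4
  exact h4.symm

theorem Dat.trace_zero (d : Dat ρ W F1 F2 S A B C) {g : Γ} (h : SemiOn (ρ g : Matrix (Fin n) (Fin n) k) A C) :
    (cc ρ F1 S g).trace = 0 := by
  have := d.trace_zero' h 1 (by rw [one_mul, mul_one])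
  rwa [one_mul] at this

theorem Dat.trace_zero_inv (d : Dat ρ W F1 F2 S A B C) {g : Γ} (h : SemiOn (ρ g : Matrix (Fin n) (Fin n) k) A C) :
    (cc ρ F1 S g⁻¹).trace = 0 := by
  have e1 : (W g : Matrix (Fin w) (Fin w) k) * (W g⁻¹ : Matrix (Fin w) (Fin w) k) = 1 := by
    rw [← val_mul', mul_inv_cancel, map_one, Units.val_one]
  have e2 : (W g⁻¹ : Matrix (Fin w) (Fin w) k) * (W g : Matrix (Fin w) (Fin w) k) = 1 := by
    rw [← val_mul', inv_mul_cancel, map_one, Units.val_one]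
  have h1 := d.cc_mul g g⁻¹
  rw [mul_inv_cancel, d.cc_one] at h1
  have h2 : cc ρ F1 S g⁻¹ = -((W g⁻¹ : Matrix (Fin w) (Fin w) k) * cc ρ F1 S g * (W g⁻¹ : Matrix (Fin w) (Fin w) k)) := by
    have h3 := congrArg (fun Z => (W g⁻¹ : Matrix (Fin w) (Fin w) k) * Z) h1
    simp only [mul_zero, mul_add, ← mul_assoc, e2, one_mul] at h3
    exact eq_neg_of_add_eq_zero_left h3.symm
  rw [h2, trace_neg, trace_mul_comm, ← mul_assoc, d.trace_zero' h _ ?_, neg_zero]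
  rw [mul_assoc, e2, mul_one, ← mul_assoc, e1, one_mul]

end dat

end

end Pool.Agent.X320.ZL
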