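import Pool.Agent.X320.ZL.Coc
import Pool.Agent.X320.FS.Comm3

/-! A representation in which all intervals of length two are complemented is semisimple. -/

set_option autoImplicit false
set_option linter.all false

namespace Pool.Agent.X320.ZL

open Matrix Pool.Agent.X320.DS Pool.Agent.X320.FS

section

variable {Γ : Type*} [Group Γ] {k : Type*} [Field k] {n w : ℕ} {ρ : Γ →* GL (Fin n) k} {W : Γ →* GL (Fin w) k}

/-- all composition factors are isomorphic to `W` -/
def Iso (ρ : Γ →* GL (Fin n) k) (W : Γ →* GL (Fin w) k) : Prop :=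
  ∀ A B, Stable ρ A → Stable ρ B → A < B → (∀ X, Stable ρ X → A ≤ X → X ≤ B → X = A ∨ X = B) → IsQuot ρ W A B

theorem st_inf {A B : Submodule k (Fin n → k)} (hA : Stable ρ A) (hB : Stable ρ B) : Stable ρ (A ⊓ B) :=
  fun g x hx => ⟨hA g x hx.1, hB g x hx.2⟩

theorem st_sup {A B : Submodule k (Fin n → k)} (hA : Stable ρ A) (hB : Stable ρ B) : Stable ρ (A ⊔ B) := by
  intro g x hx
  obtain ⟨a, ha, b, hb, rfl⟩ := Submodule.mem_sup.1 hx
  rw [mulVec_add]
  exact Submodule.add_mem_sup (hA g a ha) (hB g b hb)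

/-- minimal stable subspaces -/
def MinS (ρ : Γ →* GL (Fin n) k) (S : Submodule k (Fin n → k)) : Prop :=
  Stable ρ S ∧ S ≠ ⊥ ∧ ∀ X, Stable ρ X → X ≤ S → X = ⊥ ∨ X = S

theorem st_bot : Stable ρ (⊥ : Submodule k (Fin n → k)) := by
  intro g x hx
  rw [Submodule.mem_bot] at hx ⊢
  rw [hx, mulVec_zero]

theorem st_top : Stable ρ (⊤ : Submodule k (Fin n → k)) := fun _ _ _ => Submodule.mem_top

theorem st_sSup {T : Set (Submodule k (Fin n → k))} (h : ∀ S ∈ T, Stable ρ S) : Stable ρ (sSup T) := by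
  intro g
  have key : sSup T ≤ (sSup T).comap (Matrix.toLin' (ρ g : Matrix (Fin n) (Fin n) k)) := by
    refine sSup_le fun S hS x hx => ?_
    exact (le_sSup hS) (h S hS g x hx)
  intro x hx
  have := key hx
  rw [Submodule.mem_comap, Matrix.toLin'_apply] at this
  exact this

/-- semisimple if the minimal stable subspaces generate -/
theorem ss_of_soc (htop : sSup {S | MinS ρ S} = ⊤) : Semisimple ρ := by
  intro U hU
  have hwf : WellFounded ((· > ·) : Submodule k (Fin n → k) → Submodule k (Fin n → k) → Prop) := wellFounded_gt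
  obtain ⟨T, ⟨hT1, hT2⟩, hmax⟩ := hwf.has_min {T | Stable ρ T ∧ Disjoint U T} ⟨⊥, st_bot, disjoint_bot_right⟩
  refine ⟨T, hT1, hT2, ?_⟩
  rw [codisjoint_iff, eq_top_iff, ← htop]
  refine sSup_le fun S hS => ?_
  by_contra hnot
  have hst := st_sup hU hT1
  have h1 : S ⊓ (U ⊔ T) = ⊥ := by
    rcases hS.2.2 (S ⊓ (U ⊔ T)) (st_inf hS.1 hst) inf_le_left with h1 | h1
    · exact h1
    · exact absurd (inf_eq_left.1 h1) hnot
  have h2 : Disjoint U (T ⊔ S) := by
    rw [Submodule.disjoint_def]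
    intro x hxU hx
    obtain ⟨t, ht, s, hs, rfl⟩ := Submodule.mem_sup.1 hx
    have h3 : s ∈ U ⊔ T := by
      have e : s = (t + s) + (-t) := by abel
      rw [e]
      exact Submodule.add_mem_sup hxU (T.neg_mem ht)
    have h4 : s = 0 := by
      have : s ∈ S ⊓ (U ⊔ T) := ⟨hs, h3⟩
      rw [h1] at this
      exact this
    subst h4
    rw [add_zero] at hxU ⊢
    exact (Submodule.disjoint_def.1 hT2) t hxU ht
  refine hmax (T ⊔ S) ⟨st_sup hT1 hS.1, h2⟩ (lt_of_le_of_ne le_sup_left fun h3 => hnot ?_)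
  calc S ≤ T ⊔ S := le_sup_right
    _ = T := h3.symm
    _ ≤ U ⊔ T := le_sup_right

theorem ss_of_iso (hI : Iso ρ W) (h : ∀ A B C, Stable ρ A → Stable ρ B → Stable ρ C → A ≤ B → B ≤ C →
    IsQuot ρ W A B → IsQuot ρ W B C → ∃ D, Stable ρ D ∧ D ⊓ B = A ∧ D ⊔ B = C) : Semisimple ρ := by
  refine ss_of_soc ?_
  set s := sSup {S | MinS ρ S} with hs
  have hsst : Stable ρ s := st_sSup fun S hS => hS.1
  by_contra hne
  have hwf : WellFounded ((· < ·) : Submodule k (Fin n → k) → Submodule k (Fin n → k) → Prop) := wellFounded_lt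
  have hwf' : WellFounded ((· > ·) : Submodule k (Fin n → k) → Submodule k (Fin n → k) → Prop) := wellFounded_gt
  obtain ⟨m, ⟨hm, hms⟩, hmin⟩ := hwf.has_min {m | Stable ρ m ∧ ¬ m ≤ s} ⟨⊤, st_top, fun h => hne (top_le_iff.1 h)⟩
  have hbelow : ∀ x, Stable ρ x → x < m → x ≤ m ⊓ s := by
    intro x hxs hx
    refine le_inf hx.le ?_
    by_contra hxs'
    exact hmin x ⟨hxs, hxs'⟩ hx
  have hlt : m ⊓ s < m := lt_of_le_of_ne inf_le_left fun h => hms (inf_eq_left.1 h)
  have hst : Stable ρ (m ⊓ s) := st_inf hm hsst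
  have hcov : ∀ X, Stable ρ X → m ⊓ s ≤ X → X ≤ m → X = m ⊓ s ∨ X = m := by
    intro X hX h1 h2
    rcases eq_or_lt_of_le h2 with h3 | h3
    · exact Or.inr h3
    · exact Or.inl (le_antisymm (hbelow X hX h3) h1)
  rcases eq_or_ne (m ⊓ s) ⊥ with hbot | hbot
  · apply hms
    refine le_sSup ⟨hm, fun h0 => hms (by rw [h0]; exact bot_le), fun X hX hXm => ?_⟩
    rcases eq_or_lt_of_le hXm with h3 | h3
    · exact Or.inr h3
    · left
      rw [eq_bot_iff, ← hbot]
      exact hbelow X hX h3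
  · obtain ⟨a, ⟨ha, halt⟩, hamax⟩ := hwf'.has_min {a | Stable ρ a ∧ a < m ⊓ s} ⟨⊥, st_bot, bot_lt_iff_ne_bot.2 hbot⟩
    obtain ⟨d, hd, hd1, hd2⟩ := h a (m ⊓ s) m ha hst hm halt.le inf_le_left
      (hI a (m ⊓ s) ha hst halt fun X hX h1 h2 => by
        rcases eq_or_lt_of_le h2 with h3 | h3
        · exact Or.inr h3
        · rcases eq_or_lt_of_le h1 with h4 | h4
          · exact Or.inl h4.symm
          · exact absurd h4 (hamax X ⟨hX, h3⟩))
      (hI (m ⊓ s) m hst hm hlt hcov)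
    have hdm : d ≤ m := by
      rw [← hd2]
      exact le_sup_left
    rcases eq_or_lt_of_le hdm with hdm | hdm
    · rw [hdm, inf_eq_right.2 inf_le_left] at hd1
      exact halt.ne hd1.symm
    · rw [sup_eq_right.2 (hbelow d hd hdm)] at hd2
      exact hlt.ne hd2

end

end Pool.Agent.X320.ZL
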