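import Pool.Agent.X320.ZL.Grp
import Pool.Agent.X320.ZL.Lat
import Pool.Agent.X320.FS.Group
import Pool.Agent.X320.FS.Final

/-! The zero-one law for Galois representations. -/

set_option autoImplicit false
set_option linter.all false

namespace Pool.Agent.X320.ZL

open MeasureTheory Topology Filter NumberField IsDedekindDomain Matrix Module Polynomial
open Pool.Agent.W401.Cheb Pool.Agent.X320.DS Pool.Agent.X320.RU Pool.Agent.X320.FS
open Pool.Agent.W528.Ord (dens_mono dens_nonneg dens_or)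

section galois

variable {K : Type} [Field K] [NumberField K] {n w : ℕ}

/-- the matrices of the elements of every open subgroup span -/
def Strong {k : Type*} [Field k] (W : GK K →* GL (Fin w) k) : Prop :=
  0 < w ∧ ∀ H : Subgroup (GK K), IsOpen (H : Set (GK K)) →
    Submodule.span k {X : Matrix (Fin w) (Fin w) k | ∃ h ∈ H, X = (W h : Matrix (Fin w) (Fin w) k)} = ⊤

/-- the matrices span -/
def AbsIrr {k : Type*} [Field k] (W : GK K →* GL (Fin w) k) : Prop :=
  0 < w ∧ Submodule.span k {X : Matrix (Fin w) (Fin w) k | ∃ h ∈ (⊤ : Subgroup (GK K)),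
    X = (W h : Matrix (Fin w) (Fin w) k)} = ⊤

theorem splits_of {k : Type*} [Field k] [CharZero k] [TopologicalSpace k] [IsTopologicalRing k] [T2Space k]
    {ρ : GK K →* GL (Fin n) k} (hρ : Continuous ρ) {W : GK K →* GL (Fin w) k} {A B C : Submodule k (Fin n → k)}
    (hB : Stable ρ B) (hC : Stable ρ C) (hAB : A ≤ B) (hBC : B ≤ C) (h1 : IsQuot ρ W A B) (h2 : IsQuot ρ W B C)
    {δ : ℝ} (hG : ∃ᶠ N in atTop, δ ≤ dens (fun v : HeightOneSpectrum (𝓞 K) => ∀ σ, IsFrob v σ →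
      SemiOn (ρ σ : Matrix (Fin n) (Fin n) k) A C) N)
    (hδ : (0 < δ ∧ Strong W) ∨ ((1 - δ) * (2 * (w : ℝ) ^ 2) < 1 ∧ AbsIrr W)) :
    ∃ D, Stable ρ D ∧ D ⊓ B = A ∧ D ⊔ B = C := by
  classical
  letI : MeasurableSpace (GK K) := borel _
  haveI : BorelSpace (GK K) := ⟨rfl⟩
  set μ : Measure (GK K) := Measure.haarMeasure (⊤ : TopologicalSpace.PositiveCompacts (GK K)) with hμ
  haveI : IsProbabilityMeasure μ := ⟨by
    have := Measure.haarMeasure_self (K₀ := (⊤ : TopologicalSpace.PositiveCompacts (GK K)))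
    rw [hμ]
    rwa [TopologicalSpace.PositiveCompacts.coe_top] at this⟩
  obtain ⟨F1, F2, S, d⟩ := exists_dat hAB hBC hB hC h1 h2
  have hZc : IsClosed {x | (cc ρ F1 S x).trace = 0} := isClosed_singleton.preimage
    (cont_mem ρ (W := (⊤ : Subgroup (GK K))) isOpen_univ hρ _ (tr_mem (ρ := ρ) (F1 := F1) (S := S) ⊤))
  have h3 := measure_ge_freq μ _ hG _ hZc (fun v hv σ hσ => d.trace_zero_inv (hv σ hσ))
  rcases hδ with ⟨hδ, hw, hs⟩ | ⟨hδ, hw, hs⟩
  · obtain ⟨P, hP⟩ := splits_strong μ hρ d hw hs (by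
      intro h
      rw [h] at h3
      have := ENNReal.ofReal_eq_zero.1 (le_antisymm h3 bot_le)
      linarith)
    exact d.compl hP
  · obtain ⟨P, hP⟩ := splits_dense μ hρ d hw hs (by
      have h4 : δ ≤ μ.real {x | (cc ρ F1 S x).trace = 0} := by
        rw [measureReal_def]
        exact (ENNReal.ofReal_le_iff_le_toReal (measure_ne_top _ _)).1 h3
      have h5 : (0 : ℝ) ≤ 2 * (w : ℝ) ^ 2 := by positivity
      exact (mul_le_mul_of_nonneg_right (by linarith) h5).trans_lt hδ)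
    exact d.compl hP

variable {p : ℕ} [hp : Fact p.Prime] {E : Type*} [NontriviallyNormedField E] [CompleteSpace E]
  [IsUltrametricDist E] [NormedAlgebra ℚ_[p] E]

include hp in
/-- density one for semisimple representations -/
theorem dens_one_ss {ρ : GK K →* GL (Fin n) E} (hρ : Continuous ρ) (hss : Semisimple ρ)
    {S : Set (HeightOneSpectrum (𝓞 K))} (hS : S.Finite) (hI : ∀ v ∉ S, ∀ τ, IsInert v τ → ρ τ = 1) :
    Tendsto (dens fun v : HeightOneSpectrum (𝓞 K) => ∀ σ, IsFrob v σ →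
      (minpoly E (ρ σ : Matrix (Fin n) (Fin n) E)).Separable) atTop (𝓝 1) := by
  classical
  haveI : CharZero E := charZero_of_injective_algebraMap (algebraMap ℚ_[p] E).injective
  letI : MeasurableSpace (GK K) := borel _
  haveI : BorelSpace (GK K) := ⟨rfl⟩
  set μ : Measure (GK K) := Measure.haarMeasure (⊤ : TopologicalSpace.PositiveCompacts (GK K)) with hμ
  haveI : IsProbabilityMeasure μ := ⟨by
    have := Measure.haarMeasure_self (K₀ := (⊤ : TopologicalSpace.PositiveCompacts (GK K)))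
    rw [hμ]
    rwa [TopologicalSpace.PositiveCompacts.coe_top] at this⟩
  obtain ⟨B, hBc, hB0, hB⟩ := group_ss (p := p) ρ μ hρ hss
  refine dens_one_remove S hS ?_ (dens_good μ hBc hB0)
  rintro v ⟨σ₀, hσ₀, hσB⟩ hvS σ hσ
  have hs1 := hB _ hσB
  obtain ⟨τ, ι', hι', rfl⟩ := Pool.Agent.W401.Frob.conj_frob v σ₀ σ hσ₀ hσ
  have h1 : ρ (τ * σ₀ * τ⁻¹ * ι') = ρ (τ * σ₀ * τ⁻¹) := by
    rw [map_mul, hI v hvS ι' hι', mul_one]
  have h2 : Module.End.IsSemisimple (Matrix.toLin' (ρ (τ * σ₀ * τ⁻¹ * ι') : Matrix (Fin n) (Fin n) E)) := by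
    rw [h1, KR.val_mul, KR.val_mul]
    refine ss_conj (KR.val_mul_inv τ) (KR.val_inv_mul τ) ?_
    exact ss_inv (KR.val_inv_mul σ₀) hs1
  have h3 := h2.minpoly_squarefree
  rw [Matrix.minpoly_toLin'] at h3
  exact (PerfectField.separable_iff_squarefree).2 h3

include hp in
/-- **The zero-one law.** -/
theorem zero_one {ρ : GK K →* GL (Fin n) E} (hρ : Continuous ρ) {S : Set (HeightOneSpectrum (𝓞 K))} (hS : S.Finite)
    (hI : ∀ v ∉ S, ∀ τ, IsInert v τ → ρ τ = 1) {W : GK K →* GL (Fin w) E} (hW : Strong W) (hiso : Iso ρ W) :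
    (Semisimple ρ ∧ Tendsto (dens fun v : HeightOneSpectrum (𝓞 K) => ∀ σ, IsFrob v σ →
      (minpoly E (ρ σ : Matrix (Fin n) (Fin n) E)).Separable) atTop (𝓝 1)) ∨
    (¬ Semisimple ρ ∧ Tendsto (dens fun v : HeightOneSpectrum (𝓞 K) => ∀ σ, IsFrob v σ →
      (minpoly E (ρ σ : Matrix (Fin n) (Fin n) E)).Separable) atTop (𝓝 0)) := by
  haveI : CharZero E := charZero_of_injective_algebraMap (algebraMap ℚ_[p] E).injective
  by_cases hss : Semisimple ρ
  · exact Or.inl ⟨hss, dens_one_ss (p := p) hρ hss hS hI⟩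
  refine Or.inr ⟨hss, ?_⟩
  rw [tendsto_order]
  refine ⟨fun a ha => Eventually.of_forall fun N => ha.trans_le (dens_nonneg _ _), fun a ha => ?_⟩
  by_contra hcon
  rw [Filter.not_eventually] at hcon
  apply hss
  refine ss_of_iso hiso fun A B C hA hB hC hAB hBC h1 h2 => ?_
  refine splits_of hρ hB hC hAB hBC h1 h2 (δ := a) ?_ (Or.inl ⟨ha, hW⟩)
  refine hcon.mono fun N hN => (not_lt.1 hN).trans ?_
  refine dens_mono (fun v hv σ hσ => ?_) N
  refine ⟨minpoly E (ρ σ : Matrix (Fin n) (Fin n) E), hv σ hσ, fun x _ => ?_⟩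
  rw [minpoly.aeval, zero_mulVec]
  exact A.zero_mem

end galois

end Pool.Agent.X320.ZL
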