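import Pool.Agent.X320.ZL.Avg
import Pool.Agent.X320.KR.PMain

/-! The splitting of self-extensions over compact groups. -/

set_option autoImplicit false
set_option linter.all false

namespace Pool.Agent.X320.ZL

open Matrix MeasureTheory Topology Pool.Agent.X320.DS Pool.Agent.X320.RU

section

variable {G : Type*} [Group G] {k : Type*} [Field k] {n w : ℕ} {ρ : G →* GL (Fin n) k} {W : G →* GL (Fin w) k}
  {F1 F2 : Matrix (Fin w) (Fin n) k} {S : Matrix (Fin n) (Fin w) k} {A B C : Submodule k (Fin n → k)}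

/-- the pairs of the elements of a subgroup -/
def prs (ρ : G →* GL (Fin n) k) (W : G →* GL (Fin w) k) (F1 : Matrix (Fin w) (Fin n) k)
    (S : Matrix (Fin n) (Fin w) k) (H : Subgroup G) : Set ((Matrix (Fin w) (Fin w) k) × (Matrix (Fin w) (Fin w) k)) :=
  {p | ∃ h ∈ H, p = ((W h : (Matrix (Fin w) (Fin w) k)), cc ρ F1 S h)}

theorem prs_mul (d : Dat ρ W F1 F2 S A B C) (H : Subgroup G) :
    ∀ p ∈ prs ρ W F1 S H, ∀ q ∈ prs ρ W F1 S H, pm p q ∈ prs ρ W F1 S H := by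
  rintro _ ⟨g, hg, rfl⟩ _ ⟨h, hh, rfl⟩
  refine ⟨g * h, H.mul_mem hg hh, ?_⟩
  refine Prod.ext ?_ ?_
  · exact (val_mul' W g h).symm
  · exact (d.cc_mul g h).symm

theorem prs_fst (H : Subgroup G) (h : Submodule.span k {X : (Matrix (Fin w) (Fin w) k) | ∃ h ∈ H, X = (W h : (Matrix (Fin w) (Fin w) k))} = ⊤) :
    Submodule.span k (Prod.fst '' prs ρ W F1 S H) = ⊤ := by
  rw [← h]
  congr 1
  ext X
  constructor
  · rintro ⟨_, ⟨g, hg, rfl⟩, rfl⟩
    exact ⟨g, hg, rfl⟩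
  · rintro ⟨g, hg, rfl⟩
    exact ⟨_, ⟨g, hg, rfl⟩, rfl⟩

/-- the functional of an element -/
def lam (ρ : G →* GL (Fin n) k) (W : G →* GL (Fin w) k) (F1 : Matrix (Fin w) (Fin n) k)
    (S : Matrix (Fin n) (Fin w) k) (x : G) : (Matrix (Fin w) (Fin w) k) × (Matrix (Fin w) (Fin w) k) →ₗ[k] k :=
  { toFun := fun p => (p.1 * cc ρ F1 S x + p.2 * (W x : (Matrix (Fin w) (Fin w) k))).trace
    map_add' := fun p q => by
      show ((p.1 + q.1) * cc ρ F1 S x + (p.2 + q.2) * (W x : (Matrix (Fin w) (Fin w) k))).trace = _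
      rw [add_mul, add_mul, trace_add, trace_add, trace_add, trace_add, trace_add]
      ring
    map_smul' := fun c p => by
      show ((c • p.1) * cc ρ F1 S x + (c • p.2) * (W x : (Matrix (Fin w) (Fin w) k))).trace = c • _
      rw [smul_mul_assoc, smul_mul_assoc, ← smul_add, trace_smul] }

theorem lam_prs (d : Dat ρ W F1 F2 S A B C) (g x : G) :
    lam ρ W F1 S x ((W g : (Matrix (Fin w) (Fin w) k)), cc ρ F1 S g) = (cc ρ F1 S (g * x)).trace := by
  show ((W g : (Matrix (Fin w) (Fin w) k)) * cc ρ F1 S x + cc ρ F1 S g * (W x : (Matrix (Fin w) (Fin w) k))).trace = _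
  rw [d.cc_mul]

theorem lam_ne (hw : 0 < w) (x : G) (hall : ∀ Y : (Matrix (Fin w) (Fin w) k), ((0 : (Matrix (Fin w) (Fin w) k)), Y) ∈ Submodule.span k (prs ρ W F1 S ⊤))
    (s : Set ((Matrix (Fin w) (Fin w) k) × (Matrix (Fin w) (Fin w) k))) (hs : Submodule.span k s = Submodule.span k (prs ρ W F1 S ⊤))
    (h0 : ∀ p ∈ s, lam ρ W F1 S x p = 0) : False := by
  have h1 : Submodule.span k s ≤ LinearMap.ker (lam ρ W F1 S x) := Submodule.span_le.2 h0
  rw [hs] at h1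
  have h2 := h1 (hall (single ⟨0, hw⟩ ⟨0, hw⟩ 1 * (W x⁻¹ : (Matrix (Fin w) (Fin w) k))))
  have h3 : ((0 : (Matrix (Fin w) (Fin w) k)) * cc ρ F1 S x + ((single (⟨0, hw⟩ : Fin w) (⟨0, hw⟩ : Fin w) (1 : k) : (Matrix (Fin w) (Fin w) k)) * (W x⁻¹ : (Matrix (Fin w) (Fin w) k))) *
      (W x : (Matrix (Fin w) (Fin w) k))).trace = 0 := h2
  rw [zero_mul, zero_add, mul_assoc, w_inv', mul_one, trace_single_eq_same] at h3
  exact one_ne_zero h3

theorem lam_ne' (hw : 0 < w) (x : G) {s : Set ((Matrix (Fin w) (Fin w) k) × (Matrix (Fin w) (Fin w) k))} (hall : ∀ Y : (Matrix (Fin w) (Fin w) k), ((0 : (Matrix (Fin w) (Fin w) k)), Y) ∈ Submodule.span k s)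
    (h0 : ∀ p ∈ s, lam ρ W F1 S x p = 0) : False := by
  have h1 : Submodule.span k s ≤ LinearMap.ker (lam ρ W F1 S x) := Submodule.span_le.2 h0
  have h2 := h1 (hall (single ⟨0, hw⟩ ⟨0, hw⟩ 1 * (W x⁻¹ : (Matrix (Fin w) (Fin w) k))))
  have h3 : ((0 : (Matrix (Fin w) (Fin w) k)) * cc ρ F1 S x + ((single (⟨0, hw⟩ : Fin w) (⟨0, hw⟩ : Fin w) (1 : k) : (Matrix (Fin w) (Fin w) k)) * (W x⁻¹ : (Matrix (Fin w) (Fin w) k))) *
      (W x : (Matrix (Fin w) (Fin w) k))).trace = 0 := h2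
  rw [zero_mul, zero_add, mul_assoc, w_inv', mul_one, trace_single_eq_same] at h3
  exact one_ne_zero h3

theorem tr_mem (U : Subgroup G) : (fun x => (cc ρ F1 S x).trace) ∈ fn ρ U := by
  have e : (fun x => (cc ρ F1 S x).trace) = ∑ i : Fin w, ∑ b : Fin n, ∑ a : Fin n,
      (F1 i a * S b i) • (fun x => (ρ x : Matrix (Fin n) (Fin n) k) a b) := by
    funext x
    rw [Finset.sum_apply]
    refine Finset.sum_congr rfl fun i _ => ?_
    rw [Finset.sum_apply, Matrix.diag_apply, cc, Matrix.mul_apply]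
    refine Finset.sum_congr rfl fun b _ => ?_
    rw [Finset.sum_apply, Matrix.mul_apply, Finset.sum_mul]
    refine Finset.sum_congr rfl fun a _ => ?_
    rw [Pi.smul_apply, smul_eq_mul]
    ring
  rw [e]
  exact Subalgebra.sum_mem _ fun i _ => Subalgebra.sum_mem _ fun b _ => Subalgebra.sum_mem _ fun a _ =>
    (fn ρ U).smul_mem (Algebra.subset_adjoin (Or.inl ⟨a, b, rfl⟩)) _

variable [TopologicalSpace G] [IsTopologicalGroup G] [CompactSpace G] [MeasurableSpace G]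
  [BorelSpace G] [TopologicalSpace k] [IsTopologicalRing k] [T2Space k] [CharZero k]

/-- **Strongly irreducible.** -/
theorem splits_strong (μ : Measure G) [IsProbabilityMeasure μ] [μ.IsMulLeftInvariant] (hρ : Continuous ρ)
    (d : Dat ρ W F1 F2 S A B C) (hw : 0 < w)
    (hstr : ∀ H : Subgroup G, IsOpen (H : Set G) → Submodule.span k {X : (Matrix (Fin w) (Fin w) k) | ∃ h ∈ H, X = (W h : (Matrix (Fin w) (Fin w) k))} = ⊤)
    (hμ : μ {x | (cc ρ F1 S x).trace = 0} ≠ 0) :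
    ∃ P : (Matrix (Fin w) (Fin w) k), ∀ g, cc ρ F1 S g = (W g : (Matrix (Fin w) (Fin w) k)) * P - P * (W g : (Matrix (Fin w) (Fin w) k)) := by
  have h0 : μ {x | x ∈ (⊤ : Subgroup G) ∧ (cc ρ F1 S x).trace = 0} ≠ 0 := by
    have e : {x | x ∈ (⊤ : Subgroup G) ∧ (cc ρ F1 S x).trace = 0} = {x | (cc ρ F1 S x).trace = 0} := by
      ext x
      exact ⟨fun h => h.2, fun h => ⟨Subgroup.mem_top x, h⟩⟩
    rw [e]
    exact hμ
  obtain ⟨H, hHo, -, x₀, -, hx₀⟩ := Pool.Agent.X320.KR.exists_coset_fn ρ μ (W := (⊤ : Subgroup G)) isOpen_univ hρ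
    (fun x => (cc ρ F1 S x).trace) (tr_mem _) h0
  rcases split_or hw (prs_mul d H) (prs_fst H (hstr H hHo)) with hall | ⟨P, hP⟩
  · exfalso
    refine lam_ne' (ρ := ρ) (W := W) (F1 := F1) (S := S) hw x₀ hall ?_
    rintro _ ⟨g, hg, rfl⟩
    rw [lam_prs d]
    exact hx₀ g hg
  · haveI : Finite (G ⧸ H) := Subgroup.quotient_finite_of_isOpen _ hHo
    have hfi : H.FiniteIndex := Subgroup.finiteIndex_of_finite_quotient
    exact avg (W := W) d.cc_mul hfi (P := P) fun h hh => hP _ ⟨h, hh, rfl⟩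

/-- **Irreducible.** -/
theorem splits_dense (μ : Measure G) [IsProbabilityMeasure μ] [μ.IsMulLeftInvariant] (hρ : Continuous ρ)
    (d : Dat ρ W F1 F2 S A B C) (hw : 0 < w)
    (hirr : Submodule.span k {X : (Matrix (Fin w) (Fin w) k) | ∃ h ∈ (⊤ : Subgroup G), X = (W h : (Matrix (Fin w) (Fin w) k))} = ⊤)
    (hμ : (1 - μ.real {x | (cc ρ F1 S x).trace = 0}) * (2 * (w : ℝ) ^ 2) < 1) :
    ∃ P : (Matrix (Fin w) (Fin w) k), ∀ g, cc ρ F1 S g = (W g : (Matrix (Fin w) (Fin w) k)) * P - P * (W g : (Matrix (Fin w) (Fin w) k)) := by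
  classical
  rcases split_or hw (prs_mul d ⊤) (prs_fst ⊤ hirr) with hall | ⟨P, hP⟩
  swap
  · exact ⟨P, fun g => hP _ ⟨g, Subgroup.mem_top g, rfl⟩⟩
  exfalso
  set Z : Set G := {x | (cc ρ F1 S x).trace = 0} with hZ
  have hZc : IsClosed Z := isClosed_singleton.preimage
    (cont_mem ρ (W := (⊤ : Subgroup G)) isOpen_univ hρ _ (tr_mem (ρ := ρ) (F1 := F1) (S := S) ⊤))
  obtain ⟨f, hf, hspan, -⟩ := Submodule.exists_fun_fin_finrank_span_eq k (prs ρ W F1 S ⊤)
  choose g hg hfg using hf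
  have hcov : (Set.univ : Set G) ⊆ ⋃ i, (fun x => g i * x) ⁻¹' Zᶜ := by
    intro x _
    by_contra hcon
    rw [Set.mem_iUnion] at hcon
    push Not at hcon
    refine lam_ne hw x hall (Set.range f) hspan ?_
    rintro _ ⟨i, rfl⟩
    rw [hfg i, lam_prs d]
    have := hcon i
    rw [Set.mem_preimage, Set.notMem_compl_iff] at this
    exact this
  have h1 : (1 : ENNReal) ≤ ∑ i, μ ((fun x => g i * x) ⁻¹' Zᶜ) := by
    rw [← measure_univ (μ := μ)]
    exact (measure_mono hcov).trans (measure_iUnion_fintype_le _ _)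
  have h2 : ∀ i, μ ((fun x => g i * x) ⁻¹' Zᶜ) = μ Zᶜ := fun i => measure_preimage_mul μ _ _
  rw [Finset.sum_congr rfl fun i _ => h2 i, Finset.sum_const, Finset.card_univ, Fintype.card_fin, nsmul_eq_mul] at h1
  have h3 : (1 : ℝ) ≤ (Module.finrank k (Submodule.span k (prs ρ W F1 S ⊤)) : ℝ) * μ.real Zᶜ := by
    have h4 := ENNReal.toReal_mono (ENNReal.mul_ne_top (ENNReal.natCast_ne_top _) (measure_ne_top μ _)) h1
    rw [ENNReal.toReal_one, ENNReal.toReal_mul, ENNReal.toReal_natCast] at h4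
    exact h4
  have h5 : μ.real Zᶜ = 1 - μ.real Z := by
    rw [measureReal_compl hZc.measurableSet, probReal_univ]
  have h6 : (Module.finrank k (Submodule.span k (prs ρ W F1 S ⊤)) : ℝ) ≤ 2 * (w : ℝ) ^ 2 := by
    have h7 := Submodule.finrank_le (Submodule.span k (prs ρ W F1 S ⊤))
    have h8 : Module.finrank k ((Matrix (Fin w) (Fin w) k) × (Matrix (Fin w) (Fin w) k)) = 2 * w ^ 2 := by
      rw [Module.finrank_prod, Module.finrank_matrix, Module.finrank_self, Fintype.card_fin]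
      ring
    rw [h8] at h7
    exact_mod_cast h7
  have h9 : 0 ≤ μ.real Zᶜ := measureReal_nonneg
  rw [h5] at h3 h9
  have h10 := mul_le_mul_of_nonneg_right h6 h9
  linarith [mul_comm (1 - μ.real Z) (2 * (w : ℝ) ^ 2)]

end

end Pool.Agent.X320.ZL
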