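import Pool.Agent.X320.ZL.Final
import Pool.Agent.X320.FS.Mixed
import Pool.Agent.X320.FS.Mixed2

/-! The zero-one law for mixed representations. -/

set_option autoImplicit false
set_option linter.all false

namespace Pool.Agent.X320.ZL

open MeasureTheory Topology Filter NumberField IsDedekindDomain Matrix Module Polynomial
open Pool.Agent.W401.Cheb Pool.Agent.X320.DS Pool.Agent.X320.RU Pool.Agent.X320.FS
open Pool.Agent.W528.Ord (dens_mono dens_nonneg dens_or)

section galois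

variable {K : Type} [Field K] [NumberField K] {p : ℕ} [hp : Fact p.Prime] {E : Type*} [NontriviallyNormedField E]
  [CompleteSpace E] [IsUltrametricDist E] [NormedAlgebra ℚ_[p] E] {m : ℕ} {n d : Fin m → ℕ}

include hp in
theorem mixed (ρ : ∀ j, GK K →* GL (Fin (n j)) E) (U : ∀ j, GK K →* GL (Fin (d j)) E)
    (hρ : ∀ j, Continuous (ρ j)) {S : Set (HeightOneSpectrum (𝓞 K))} (hS : S.Finite)
    (hI : ∀ j, ∀ v ∉ S, ∀ τ, IsInert v τ → ρ j τ = 1) (hU : ∀ j, Strong (U j)) (hiso : ∀ j, Iso (ρ j) (U j))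
    (hcop : ∀ i j, i ≠ j → ∀ v ∉ S, ∀ σ, IsFrob v σ →
      IsCoprime (ρ i σ : Matrix (Fin (n i)) (Fin (n i)) E).charpoly (ρ j σ : Matrix (Fin (n j)) (Fin (n j)) E).charpoly)
    {V : Type*} [AddCommGroup V] [Module E V] [FiniteDimensional E V] (r : GK K →* Module.End E V)
    (W : Fin (m + 1) → Submodule E V) (φ : ∀ j : Fin m, V →ₗ[E] (Fin (n j) → E)) (hW0 : W 0 = ⊥)
    (hWm : W (Fin.last m) = ⊤) (hst : ∀ j g, ∀ x ∈ W j, r g x ∈ W j)
    (hφ : ∀ j : Fin m, ∀ x ∈ W j.succ, (φ j x = 0 ↔ x ∈ W j.castSucc) ∧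
      ∀ g, φ j (r g x) = (ρ j g : Matrix (Fin (n j)) (Fin (n j)) E) *ᵥ φ j x)
    (hsur : ∀ j : Fin m, ∀ y, ∃ x ∈ W j.succ, φ j x = y) :
    ((∀ j, Semisimple (ρ j)) ∧ Tendsto (dens fun v : HeightOneSpectrum (𝓞 K) => ∀ σ, IsFrob v σ →
      (minpoly E (r σ)).Separable) atTop (𝓝 1)) ∨
    ((∃ j, ¬ Semisimple (ρ j)) ∧ Tendsto (dens fun v : HeightOneSpectrum (𝓞 K) => ∀ σ, IsFrob v σ →
      (minpoly E (r σ)).Separable) atTop (𝓝 0)) := by
  classical
  haveI : CharZero E := charZero_of_injective_algebraMap (algebraMap ℚ_[p] E).injective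
  by_cases hall : ∀ j, Semisimple (ρ j)
  · left
    refine ⟨hall, ?_⟩
    have h1 := dens_one_all fun j : Fin m => dens_one_ss (p := p) (hρ j) (hall j) hS (hI j)
    refine dens_one_remove S hS ?_ h1
    intro v hv hvS σ hσ
    have h2 : Module.End.IsSemisimple (r σ) := by
      refine ss_filtered (r σ) (fun j => (ρ j σ : Matrix (Fin (n j)) (Fin (n j)) E))
        W hW0 hWm φ (fun j x hx => hst j _ x hx) (fun j x hx h => ((hφ j x hx).1).1 h)
        (fun j x hx => (hφ j x hx).2 _) (fun j => ?_) (fun i j hij => hcop i j hij v hvS σ hσ)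
      refine Module.End.isSemisimple_of_squarefree_aeval_eq_zero (hv j σ hσ).squarefree ?_
      rw [aeval_toLin2, minpoly.aeval, map_zero]
    exact (PerfectField.separable_iff_squarefree).2 h2.minpoly_squarefree
  · right
    push Not at hall
    obtain ⟨j, hj⟩ := hall
    refine ⟨⟨j, hj⟩, ?_⟩
    rcases zero_one (p := p) (hρ j) hS (hI j) (hU j) (hiso j) with ⟨h, -⟩ | ⟨-, h⟩
    · exact absurd h hj
    refine tendsto_of_tendsto_of_tendsto_of_le_of_le tendsto_const_nhds h (fun N => dens_nonneg _ _)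
      (fun N => dens_mono (fun v hv σ hσ => ?_) N)
    have h3 : minpoly E (ρ j σ : Matrix (Fin (n j)) (Fin (n j)) E) ∣ minpoly E (r σ) := by
      refine minpoly.dvd _ _ ?_
      apply Matrix.toLin'.injective
      rw [map_zero, ← aeval_toLin2]
      apply LinearMap.ext
      intro y
      obtain ⟨x, hx, rfl⟩ := hsur j y
      rw [← aeval_intertwine (f := r σ) (f' := Matrix.toLin' (ρ j σ : Matrix (Fin (n j)) (Fin (n j)) E))
        (hst j.succ σ) (φ j) (fun x hx => by rw [(hφ j x hx).2, Matrix.toLin'_apply]) _ x hx, minpoly.aeval,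
        LinearMap.zero_apply, map_zero]
      rfl
    exact (hv σ hσ).of_dvd h3

end galois

end Pool.Agent.X320.ZL
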